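import Pool.Agent.MT100A.Stmts
import Pool.Agent.Helper46_MTGO.PosE

/-! MT100-A, module TEN: finite orbit of Hodge forms. -/

set_option autoImplicit false

namespace Pool.Agent.MT100A.H20

open Matrix Pool.Agent.MT100 Pool.Agent.MT100G Pool.Agent.Helper78_MT Pool.Agent.Helper46_MT
  Pool.Agent.MT100G.H46 Pool.Agent.MT100GO.H46

open scoped ComplexOrder

set_option linter.unusedSectionVars false

section alg

variable {d : Type} [Fintype d] [DecidableEq d] {k : ℕ} {R : Type} [CommRing R]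

/-- the multilinear form with coefficients `t` -/
noncomputable def ML (t : (Fin k → d) → R) : MultilinearMap R (fun _ : Fin k => d → R) R :=
  ∑ β, t β • (MultilinearMap.mkPiAlgebra R (Fin k) R).compLinearMap
    (fun j => LinearMap.proj (R := R) (φ := fun _ : d => R) (β j))

theorem ML_apply (t : (Fin k → d) → R) (x : Fin k → d → R) :
    ML t x = ∑ β, t β * ∏ j, x j (β j) := by
  unfold ML
  rw [_root_.sum_apply]
  apply Finset.sum_congr rfl
  intro β _
  rw [_root_.smul_apply, MultilinearMap.compLinearMap_apply,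
    MultilinearMap.mkPiAlgebra_apply, smul_eq_mul]
  rfl

theorem ML_single (t : (Fin k → d) → R) (α : Fin k → d) :
    ML t (fun j => Pi.single (α j) 1) = t α := by
  classical
  rw [ML_apply, Finset.sum_eq_single α]
  · have : ∏ j, (Pi.single (α j) (1 : R) : d → R) (α j) = 1 := by
      apply Finset.prod_eq_one
      intro j _
      rw [Pi.single_eq_same]
    rw [this, mul_one]
  · intro β _ hβ
    obtain ⟨j, hj⟩ := Function.ne_iff.1 hβ
    rw [Finset.prod_eq_zero (Finset.mem_univ j) (Pi.single_eq_of_ne hj 1), mul_zero]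
  · intro h
    exact absurd (Finset.mem_univ α) h

theorem tA_eq_ML (t : (Fin k → d) → R) (A : Matrix d d R) (α : Fin k → d) :
    tA t A α = ML t (fun j => A *ᵥ Pi.single (α j) 1) := by
  rw [ML_apply]
  unfold tA
  apply Finset.sum_congr rfl
  intro β _
  congr 1
  apply Finset.prod_congr rfl
  intro j _
  rw [mulVec_single_one]
  rfl

theorem tA_tA (t : (Fin k → d) → R) (A B : Matrix d d R) : tA (tA t A) B = tA t (A * B) := by
  funext α
  unfold tA
  have h1 : ∀ β : Fin k → d, ∏ j, (A * B) (β j) (α j) =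
      ∑ γ : Fin k → d, ∏ j, (A (β j) (γ j) * B (γ j) (α j)) := by
    intro β
    have := Finset.prod_univ_sum (fun _ : Fin k => (Finset.univ : Finset d))
      (fun j x => A (β j) x * B x (α j))
    rw [Fintype.piFinset_univ] at this
    rw [← this]
    rfl
  calc ∑ γ : Fin k → d, (∑ β : Fin k → d, t β * ∏ j, A (β j) (γ j)) * ∏ j, B (γ j) (α j)
      = ∑ γ : Fin k → d, ∑ β : Fin k → d, t β * ∏ j, (A (β j) (γ j) * B (γ j) (α j)) := by
        apply Finset.sum_congr rfl
        intro γ _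
        rw [Finset.sum_mul]
        apply Finset.sum_congr rfl
        intro β _
        rw [Finset.prod_mul_distrib, mul_assoc]
    _ = ∑ β : Fin k → d, t β * ∏ j, (A * B) (β j) (α j) := by
        rw [Finset.sum_comm]
        apply Finset.sum_congr rfl
        intro β _
        rw [h1, Finset.mul_sum]

theorem tA_one (t : (Fin k → d) → R) : tA t (1 : Matrix d d R) = t := by
  funext α
  rw [tA_eq_ML]
  have : (fun j => (1 : Matrix d d R) *ᵥ Pi.single (α j) 1) =
      fun j => (Pi.single (α j) 1 : d → R) := by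
    funext j
    rw [one_mulVec]
  rw [this, ML_single]

theorem tA_smul (t : (Fin k → d) → R) (c : R) (A : Matrix d d R) :
    tA t (c • A) = c ^ k • tA t A := by
  funext α
  unfold tA
  rw [Pi.smul_apply, smul_eq_mul, Finset.mul_sum]
  apply Finset.sum_congr rfl
  intro β _
  have : ∏ j, (c • A) (β j) (α j) = c ^ k * ∏ j, A (β j) (α j) := by
    have h1 : ∀ j, (c • A) (β j) (α j) = c * A (β j) (α j) := fun j => rfl
    rw [Finset.prod_congr rfl (fun j _ => h1 j), Finset.prod_mul_distrib, Finset.prod_const,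
      Finset.card_univ, Fintype.card_fin]
  rw [this]
  ring

theorem tA_dot (s t : (Fin k → d) → R) (A : Matrix d d R) :
    tA s A ⬝ᵥ t = s ⬝ᵥ tA t Aᵀ := by
  unfold tA dotProduct
  simp only [Finset.sum_mul, Finset.mul_sum]
  rw [Finset.sum_comm]
  apply Finset.sum_congr rfl
  intro β _
  apply Finset.sum_congr rfl
  intro α _
  simp only [transpose_apply]
  ring

theorem tA_dot' (s t : (Fin k → d) → R) (A : Matrix d d R) :
    s ⬝ᵥ tA t A = tA s Aᵀ ⬝ᵥ t := by
  rw [tA_dot, transpose_transpose]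

theorem ML_tA (t : (Fin k → d) → R) (A : Matrix d d R) (x : Fin k → d → R) :
    ML (tA t A) x = ∑ β, t β * ∏ j, (A *ᵥ x j) (β j) := by
  rw [ML_apply]
  unfold tA
  have h1 : ∀ β : Fin k → d, ∏ j, (A *ᵥ x j) (β j) =
      ∑ γ : Fin k → d, ∏ j, (A (β j) (γ j) * x j (γ j)) := by
    intro β
    have := Finset.prod_univ_sum (fun _ : Fin k => (Finset.univ : Finset d))
      (fun j y => A (β j) y * x j y)
    rw [Fintype.piFinset_univ] at this
    rw [← this]
    rfl
  calc ∑ γ : Fin k → d, (∑ β : Fin k → d, t β * ∏ j, A (β j) (γ j)) * ∏ j, x j (γ j)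
      = ∑ γ : Fin k → d, ∑ β : Fin k → d, t β * ∏ j, (A (β j) (γ j) * x j (γ j)) := by
        apply Finset.sum_congr rfl
        intro γ _
        rw [Finset.sum_mul]
        apply Finset.sum_congr rfl
        intro β _
        rw [Finset.prod_mul_distrib, mul_assoc]
    _ = ∑ β : Fin k → d, t β * ∏ j, (A *ᵥ x j) (β j) := by
        rw [Finset.sum_comm]
        apply Finset.sum_congr rfl
        intro β _
        rw [h1, Finset.mul_sum]

end alg

section hodge

variable {d : Type} [Fintype d] [DecidableEq d] {w k : ℕ} {E : Matrix d d ℚ}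
  {π : ℕ → Matrix d d ℂ} {V : ℕ → Submodule ℂ (d → ℂ)}

/-- the casts of a transformed form -/
theorem tA_cast (t : (Fin k → d) → ℚ) (A : Matrix d d ℚ) (β : Fin k → d) :
    ((tA t A β : ℚ) : ℂ) = tA (fun β => (t β : ℂ)) (A.map (fun x => (x : ℂ))) β := by
  unfold tA
  push_cast
  rfl

/-- a real Hodge form is invariant under the Weil operator -/
theorem tA_Cw (h : Proj w E π) (h1 : ∀ p x, π p *ᵥ x ∈ V p) (hV : PolHodge w E V)
    (s : (Fin k → d) → ℂ) (hs : ∀ β, starRingEnd ℂ (s β) = s β)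
    (h2 : ∀ (p : Fin k → ℕ) (x : Fin k → d → ℂ), (∀ j, x j ∈ V (p j)) → k * w < 2 * ∑ j, p j →
      ML s x = 0) : tA s (Cw w π) = s := by
  -- conjugates
  have h3 : ∀ (p : Fin k → ℕ) (x : Fin k → d → ℂ), (∀ j, x j ∈ V (p j)) → (∀ j, p j ≤ w) →
      2 * ∑ j, p j < k * w → ML s x = 0 := by
    intro p x hx hp hlt
    have h4 : ML s (fun j => star (x j)) = 0 := by
      apply h2 (fun j => w - p j)
      · intro j
        exact hV.conj _ (hp j) _ (hx j)
      · have h5 : ∑ j, (w - p j) + ∑ j, p j = k * w := by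
          rw [← Finset.sum_add_distrib]
          have : ∀ j ∈ (Finset.univ : Finset (Fin k)), w - p j + p j = w := fun j _ =>
            Nat.sub_add_cancel (hp j)
          rw [Finset.sum_congr rfl this, Finset.sum_const, Finset.card_univ, Fintype.card_fin,
            smul_eq_mul]
        omega
    have h5 : starRingEnd ℂ (ML s (fun j => star (x j))) = ML s x := by
      rw [ML_apply, ML_apply, map_sum]
      apply Finset.sum_congr rfl
      intro β _
      rw [map_mul, map_prod, hs]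
      congr 1
      apply Finset.prod_congr rfl
      intro j _
      rw [Pi.star_apply]
      exact star_star _
    rw [← h5, h4, map_zero]
  have key : ∀ x : Fin k → d → ℂ, ML s (fun j => Cw w π *ᵥ x j) = ML s x := by
    intro x
    have e1 : (fun j => Cw w π *ᵥ x j) = fun j => ∑ p ∈ Finset.range (w + 1),
        (Complex.I ^ p * (-Complex.I) ^ (w - p)) • (π p *ᵥ x j) := by
      funext j
      unfold Cw
      rw [sum_mulVec]
      apply Finset.sum_congr rfl
      intro p _
      rw [smul_mulVec]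
    have e2 : x = fun j => ∑ p ∈ Finset.range (w + 1), (π p *ᵥ x j) := by
      funext j
      rw [← sum_mulVec, h.sum, one_mulVec]
    rw [e1]
    conv_rhs => rw [e2]
    rw [MultilinearMap.map_sum_finset, MultilinearMap.map_sum_finset]
    apply Finset.sum_congr rfl
    intro r hr
    rw [MultilinearMap.map_smul_univ]
    have hrw : ∀ j, r j ≤ w := fun j =>
      Nat.lt_succ_iff.1 (Finset.mem_range.1 (Fintype.mem_piFinset.1 hr j))
    rcases lt_trichotomy (2 * ∑ j, r j) (k * w) with hlt | heq | hgt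
    · rw [h3 r _ (fun j => h1 _ _) hrw hlt, smul_zero]
    · have h5 : ∑ j, (w - r j) = ∑ j, r j := by
        have h6 : ∑ j, (w - r j) + ∑ j, r j = k * w := by
          rw [← Finset.sum_add_distrib]
          have : ∀ j ∈ (Finset.univ : Finset (Fin k)), w - r j + r j = w := fun j _ =>
            Nat.sub_add_cancel (hrw j)
          rw [Finset.sum_congr rfl this, Finset.sum_const, Finset.card_univ, Fintype.card_fin,
            smul_eq_mul]
        omega
      have h6 : ∏ j, (Complex.I ^ r j * (-Complex.I) ^ (w - r j)) = 1 := by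
        rw [Finset.prod_mul_distrib, Finset.prod_pow_eq_pow_sum, Finset.prod_pow_eq_pow_sum, h5,
          ← mul_pow, mul_neg, Complex.I_mul_I, neg_neg, one_pow]
      rw [h6, one_smul]
    · rw [h2 r _ (fun j => h1 _ _) hgt, smul_zero]
  funext α
  rw [tA_eq_ML, key, ML_single]

end hodge

theorem ten : TenStmt := by
  intro d _ _ w E V hw hV k M hM t ht
  classical
  obtain ⟨π, hπ, h1, -, -⟩ := proj_of hV
  set F : Matrix d d ℂ := E.map (algebraMap ℚ ℂ) with hF
  set C : Matrix d d ℂ := Cw w π with hC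
  obtain ⟨c0, hc0, hpd⟩ : ∃ c0 : ℂ, c0 * c0 = 1 ∧ (c0 • (F * C)).PosDef := by
    rcases Nat.even_or_odd w with he | ho
    · exact ⟨1, one_mul 1, by rw [one_smul]; exact gram_even hV he hπ h1⟩
    · exact ⟨-1, by norm_num, by rw [neg_one_smul]; exact gram hV ho hπ h1⟩
  obtain ⟨S, hS, hSM⟩ := posdef_fac hpd
  have hSd : IsUnit S.det := (isUnit_iff_isUnit_det S).1 hS
  have hSi : S * S⁻¹ = 1 := mul_nonsing_inv S hSd
  have hSi' : S⁻¹ * S = 1 := nonsing_inv_mul S hSd
  set W : Matrix d d ℂ := S⁻¹ * (S⁻¹)ᴴ with hW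
  have hW1 : W * (c0 • (F * C)) = 1 := by
    rw [hSM, hW]
    have e1 : (S⁻¹)ᴴ * Sᴴ = 1 := by rw [← conjTranspose_mul, hSi, conjTranspose_one]
    calc S⁻¹ * (S⁻¹)ᴴ * (Sᴴ * S) = S⁻¹ * ((S⁻¹)ᴴ * Sᴴ) * S := by simp only [mul_assoc]
      _ = 1 := by rw [e1, mul_one, hSi']
  have hW2 : (c0 • (F * C)) * W = 1 := mul_eq_one_comm.1 hW1
  set Fi : Matrix d d ℂ := c0 • (C * W) with hFi
  have hF1 : F * Fi = 1 := by
    rw [hFi, mul_smul_comm, ← mul_assoc, ← smul_mul_assoc]
    exact hW2
  have hF2 : Fi * F = 1 := mul_eq_one_comm.1 hF1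
  set tc : (Fin k → d) → ℂ := fun β => (t β : ℂ) with htc
  -- the constant
  set K : ℂ := c0 ^ k * (tA tc Fi ⬝ᵥ tc) with hK
  -- the bound
  have bound : ∀ A ∈ M, ∀ β, ‖tA (tA tc (A.map (fun x => (x : ℂ)))) S⁻¹ β‖ ^ 2 ≤ ‖K‖ := by
    intro A hA β
    set Ac : Matrix d d ℂ := A.map (fun x => (x : ℂ)) with hAc
    set s : (Fin k → d) → ℂ := tA tc Ac with hs
    have hsr : ∀ β, starRingEnd ℂ (s β) = s β := by
      intro β
      rw [hs]
      unfold tA
      rw [map_sum]
      apply Finset.sum_congr rfl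
      intro γ _
      rw [map_mul, map_prod]
      congr 1
      · rw [htc]
        exact map_ratCast (starRingEnd ℂ) _
      · apply Finset.prod_congr rfl
        intro j _
        rw [hAc, map_apply]
        exact map_intCast (starRingEnd ℂ) _
    have hs2 : ∀ (p : Fin k → ℕ) (x : Fin k → d → ℂ), (∀ j, x j ∈ V (p j)) →
        k * w < 2 * ∑ j, p j → ML s x = 0 := by
      intro p x hx hlt
      rw [hs, ML_tA]
      exact ht A hA p x hx hlt
    have hsC : tA s C = s := tA_Cw hπ h1 hV s hsr hs2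
    -- the norm
    have hN : ∑ β, (tA s S⁻¹ β) * starRingEnd ℂ (tA s S⁻¹ β) = K := by
      have e1 : ∀ β, starRingEnd ℂ (tA s S⁻¹ β) = tA s (S⁻¹.map (starRingEnd ℂ)) β := by
        intro β
        unfold tA
        rw [map_sum]
        apply Finset.sum_congr rfl
        intro γ _
        rw [map_mul, map_prod, hsr]
        rfl
      have e2 : ∑ β, (tA s S⁻¹ β) * starRingEnd ℂ (tA s S⁻¹ β) =
          tA s S⁻¹ ⬝ᵥ tA s (S⁻¹.map (starRingEnd ℂ)) := by
        unfold dotProduct
        apply Finset.sum_congr rfl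
        intro β _
        rw [e1]
      have e3 : (S⁻¹.map (starRingEnd ℂ))ᵀ = (S⁻¹)ᴴ := rfl
      rw [e2, tA_dot', tA_tA, e3, ← hW]
      have e4 : W = c0 • (c0 • W) := by rw [smul_smul, hc0, one_smul]
      have e5 : tA s W = c0 ^ k • tA s Fi := by
        have e6 : tA s Fi = c0 ^ k • tA s W := by
          rw [hFi, tA_smul, ← tA_tA, hsC]
        rw [e6, smul_smul, ← mul_pow, hc0, one_pow, one_smul]
      rw [e5, smul_dotProduct, smul_eq_mul, hK]
      congr 1
      rw [hs, tA_tA, tA_dot', tA_tA]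
      congr 2
      -- `A Fi Aᵀ = Fi`
      have hAF : Acᵀ * F * Ac = F := by
        have h3 := congrArg (fun X : Matrix d d ℚ => X.map (algebraMap ℚ ℂ)) (hM A hA)
        simp only [Matrix.map_mul] at h3
        have e7 : (A.map (fun x => (x : ℚ))).map (algebraMap ℚ ℂ) = Ac := by
          ext i j
          simp [hAc]
        have e8 : ((A.map (fun x => (x : ℚ)))ᵀ).map (algebraMap ℚ ℂ) = Acᵀ := by
          rw [← e7]
          rfl
        rw [e7, e8] at h3
        exact h3
      have h4 : (Fi * Acᵀ * F) * Ac = 1 := by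
        calc (Fi * Acᵀ * F) * Ac = Fi * (Acᵀ * F * Ac) := by simp only [mul_assoc]
          _ = 1 := by rw [hAF, hF2]
      have h5 : Ac * (Fi * Acᵀ * F) = 1 := mul_eq_one_comm.1 h4
      calc Ac * Fi * Acᵀ = Ac * Fi * Acᵀ * (F * Fi) := by rw [hF1, mul_one]
        _ = (Ac * (Fi * Acᵀ * F)) * Fi := by simp only [mul_assoc]
        _ = Fi := by rw [h5, one_mul]
    have hN2 : ∑ β, ((‖tA s S⁻¹ β‖ ^ 2 : ℝ) : ℂ) = K := by
      rw [← hN]
      apply Finset.sum_congr rfl
      intro β _
      rw [Complex.mul_conj, Complex.normSq_eq_norm_sq]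
    have hN3 : ‖K‖ = ∑ β, ‖tA s S⁻¹ β‖ ^ 2 := by
      rw [← hN2, ← Complex.ofReal_sum, Complex.norm_real, Real.norm_eq_abs, abs_of_nonneg]
      exact Finset.sum_nonneg fun β _ => sq_nonneg _
    rw [hN3]
    exact Finset.single_le_sum (f := fun β => ‖tA s S⁻¹ β‖ ^ 2) (fun β _ => sq_nonneg _)
      (Finset.mem_univ β)
  -- the bound of the coordinates
  obtain ⟨B, hB⟩ : ∃ B : ℝ, ∀ A ∈ M, ∀ α, ‖tA tc (A.map (fun x => (x : ℂ))) α‖ ≤ B := by
    refine ⟨∑ α, ∑ β, (‖K‖ + 1) * ∏ j, ‖S ((β : Fin k → d) j) ((α : Fin k → d) j)‖, ?_⟩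
    intro A hA α
    have e1 : tA tc (A.map (fun x => (x : ℂ))) =
        tA (tA (tA tc (A.map (fun x => (x : ℂ)))) S⁻¹) S := by
      rw [tA_tA _ S⁻¹, hSi', tA_one]
    have h2 : ‖tA tc (A.map (fun x => (x : ℂ))) α‖ ≤
        ∑ β, (‖K‖ + 1) * ∏ j, ‖S ((β : Fin k → d) j) (α j)‖ := by
      rw [e1]
      conv_lhs => unfold tA
      refine (norm_sum_le _ _).trans ?_
      apply Finset.sum_le_sum
      intro β _
      rw [norm_mul, norm_prod]
      apply mul_le_mul_of_nonneg_right _ (Finset.prod_nonneg fun j _ => norm_nonneg _)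
      have h3 := bound A hA β
      have h4 : ‖tA (tA tc (A.map (fun x => (x : ℂ)))) S⁻¹ β‖ ≤ ‖K‖ + 1 := by
        nlinarith [norm_nonneg K, norm_nonneg (tA (tA tc (A.map (fun x => (x : ℂ)))) S⁻¹ β)]
      exact h4
    refine h2.trans ?_
    exact Finset.single_le_sum
      (f := fun α => ∑ β, (‖K‖ + 1) * ∏ j, ‖S ((β : Fin k → d) j) ((α : Fin k → d) j)‖)
      (fun α _ => Finset.sum_nonneg fun β _ => mul_nonneg (by positivity)
        (Finset.prod_nonneg fun j _ => norm_nonneg _)) (Finset.mem_univ α)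
  -- denominators
  obtain ⟨D, hD0, hD⟩ : ∃ D : ℕ, 0 < D ∧ ∀ β, ∃ m : ℤ, (D : ℚ) * t β = m := by
    refine ⟨∏ β, (t β).den, Finset.prod_pos fun β _ => (t β).den_pos, fun β => ?_⟩
    obtain ⟨e, he⟩ := Finset.dvd_prod_of_mem (fun β => (t β).den) (Finset.mem_univ β)
    refine ⟨e * (t β).num, ?_⟩
    rw [he]
    push_cast
    have := Rat.den_mul_eq_num (t β)
    rw [mul_comm ((t β).den : ℚ) (e : ℚ), mul_assoc, this]
  have hfin : (Set.Icc (fun _ : Fin k → d => -⌈(D : ℝ) * B⌉)
      (fun _ : Fin k → d => ⌈(D : ℝ) * B⌉)).Finite := Set.finite_Icc _ _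
  refine (hfin.image (fun m : (Fin k → d) → ℤ => fun β => (m β : ℚ) / D)).subset ?_
  rintro s ⟨A, hA, rfl⟩
  have hm : ∀ α, ∃ m : ℤ, (D : ℚ) * tA t (A.map (fun x => (x : ℚ))) α = m := by
    intro α
    choose m hm using hD
    refine ⟨∑ β, m β * ∏ j, A (β j) (α j), ?_⟩
    unfold tA
    rw [Finset.mul_sum]
    push_cast
    apply Finset.sum_congr rfl
    intro β _
    rw [← mul_assoc, hm]
    rfl
  choose m hm using hm
  have hDq : (D : ℚ) ≠ 0 := by exact_mod_cast hD0.ne'
  refine ⟨m, ?_, ?_⟩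
  · have hb : ∀ α, |(m α : ℝ)| ≤ (D : ℝ) * B := by
      intro α
      have h2 := hB A hA α
      have h3 : ((tA t (A.map (fun x => (x : ℚ))) α : ℚ) : ℂ) =
          tA tc (A.map (fun x => (x : ℂ))) α := by
        have e9 : (A.map (fun x => (x : ℚ))).map (fun x => (x : ℂ)) = A.map (fun x => (x : ℂ)) := by
          ext i j
          simp
        rw [tA_cast, e9]
      rw [← h3] at h2
      have h4 : ‖((tA t (A.map (fun x => (x : ℚ))) α : ℚ) : ℂ)‖ =
          |((tA t (A.map (fun x => (x : ℚ))) α : ℚ) : ℝ)| := by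
        generalize tA t (A.map (fun x => (x : ℚ))) α = q
        have e9 : ((q : ℚ) : ℂ) = (((q : ℚ) : ℝ) : ℂ) := by push_cast; rfl
        rw [e9, Complex.norm_real, Real.norm_eq_abs]
      rw [h4] at h2
      have h5 : (m α : ℝ) = D * ((tA t (A.map (fun x => (x : ℚ))) α : ℚ) : ℝ) := by
        have := hm α
        exact_mod_cast this.symm
      rw [h5, abs_mul, Nat.abs_cast]
      exact mul_le_mul_of_nonneg_left h2 (Nat.cast_nonneg D)
    rw [Set.mem_Icc]
    constructor
    · intro α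
      have h2 := (abs_le.1 (hb α)).1
      have h3 := Int.le_ceil ((D : ℝ) * B)
      have : (-⌈(D : ℝ) * B⌉ : ℝ) ≤ m α := by linarith
      exact_mod_cast this
    · intro α
      have h2 := (abs_le.1 (hb α)).2
      have h3 := Int.le_ceil ((D : ℝ) * B)
      have : (m α : ℝ) ≤ ⌈(D : ℝ) * B⌉ := by linarith
      exact_mod_cast this
  · funext α
    show (m α : ℚ) / D = _
    rw [← hm α, mul_div_cancel_left₀ _ hDq]

end Pool.Agent.MT100A.H20
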